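import Pool.Agent.Results.MP_52c726_an.Counterexample

/-!
For which cardinals `κ` is it true that in every Banach space with the separable complementation
property every subspace of density `κ` lies in a complemented subspace of density `κ`? Exactly for
`κ ≤ ℵ₀`. For every uncountable `κ` there is a Banach space with the separable complementation
property and a subspace `W` of density `κ` such that every complemented subspace containing `W` has
density `2 ^ κ`.

The space is the kernel of the sum map from the `ℓ¹`-sum of the spaces `ℓ²(A)` to `ℓ²(Γ)`, where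
`Γ` has `κ` elements and `A` runs over the countable subsets of `Γ`, over the finite subsets of `Γ`
(once more; these carry the subspace `W`), and over an independent family of `2 ^ κ` subsets.
-/

set_option autoImplicit false

open scoped ENNReal BigOperators
open RCLike TopologicalSpace Cardinal Set

namespace Pool.Agent.Results.MP_52c726_an.AllUncountableCardinals

open Pool.Agent.Results.MP_52c726_an.Counterexample

section SetTh

variable {G : Type}

/-- The set `Γ` of pairs of finite subsets of `G`. -/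
abbrev Gam (G : Type) : Type := Finset G × Finset G

/-- The index set: the countable subsets of `Γ`, the finite subsets of `Γ`, the subsets of `G`. -/
abbrev Ix (G : Type) : Type := ({C : Set (Gam G) // C.Countable} ⊕ Finset (Gam G)) ⊕ Set G

/-- The subset of `Γ` attached to an index. -/
def ix : Ix G → Set (Gam G)
  | Sum.inl (Sum.inl C) => C.1
  | Sum.inl (Sum.inr K) => (K : Set (Gam G))
  | Sum.inr s => {p | ∀ x, x ∈ p.2 ↔ x ∈ p.1 ∧ x ∈ s}

theorem mem_ix_inr {s : Set G} {p : Gam G} :
    p ∈ ix (Sum.inr s : Ix G) ↔ ∀ x, x ∈ p.2 ↔ x ∈ p.1 ∧ x ∈ s := Iff.rfl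

theorem free_ix [Uncountable G] (s : Set G) (F : Finset (Ix G)) (hs : (Sum.inr s : Ix G) ∉ F)
    (K : Finset (Gam G)) :
    ∃ γ ∈ ix (Sum.inr s : Ix G), γ ∉ K ∧ ∀ j ∈ F, γ ∉ ix j := by
  classical
  -- the countable part of an index
  let cp : Ix G → Set (Gam G) := fun j => match j with
    | Sum.inl j => ix (Sum.inl j)
    | Sum.inr _ => ∅
  have hcp : ∀ j, (cp j).Countable := by
    rintro ((C | K) | t)
    · exact C.2
    · exact K.countable_toSet
    · exact countable_empty
  have hc : (⋃ p ∈ ((K : Set (Gam G)) ∪ ⋃ j ∈ F, cp j), (p.1 : Set G)).Countable := by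
    apply Countable.biUnion
    · apply Countable.union K.countable_toSet
      exact (F.countable_toSet).biUnion fun j _ => hcp j
    · intro p _
      exact p.1.countable_toSet
  have hne : ∃ b : G, b ∉ (⋃ p ∈ ((K : Set (Gam G)) ∪ ⋃ j ∈ F, cp j), (p.1 : Set G)) := by
    by_contra hcon
    push Not at hcon
    have : (univ : Set G).Countable := hc.mono fun x _ => hcon x
    exact not_countable (α := G) (countable_univ_iff.1 this)
  obtain ⟨b, hb⟩ := hne
  -- distinguishing points
  have hy : ∀ t : Set G, ∃ y : G, t ≠ s → ¬ (y ∈ t ↔ y ∈ s) := by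
    intro t
    by_cases h : t = s
    · exact ⟨b, fun h' => absurd h h'⟩
    · have : ∃ y, ¬ (y ∈ t ↔ y ∈ s) := by
        by_contra hcon
        push Not at hcon
        exact h (Set.ext hcon)
      obtain ⟨y, hy⟩ := this
      exact ⟨y, fun _ => hy⟩
  choose y hy using hy
  let H : Finset G := insert b (F.image fun j => match j with
    | Sum.inl _ => b
    | Sum.inr t => y t)
  have hbH : b ∈ H := Finset.mem_insert_self _ _
  refine ⟨(H, H.filter (· ∈ s)), ?_, ?_, ?_⟩
  · rw [mem_ix_inr]
    intro x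
    simp
  · intro hK
    exact hb (mem_biUnion (x := ((H, H.filter (· ∈ s)) : Gam G))
      (Or.inl (Finset.mem_coe.2 hK)) (Finset.mem_coe.2 hbH))
  · intro j hj hmem
    rcases j with j | t
    · have hmem' : ((H, H.filter (· ∈ s)) : Gam G) ∈ ⋃ j ∈ F, cp j :=
        mem_biUnion (x := (Sum.inl j : Ix G)) hj hmem
      exact hb (mem_biUnion (x := ((H, H.filter (· ∈ s)) : Gam G)) (Or.inr hmem')
        (Finset.mem_coe.2 hbH))
    · have hts : t ≠ s := fun h => hs (h ▸ hj)
      have hyH : y t ∈ H := by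
        apply Finset.mem_insert_of_mem
        exact Finset.mem_image.2 ⟨Sum.inr t, hj, rfl⟩
      have h1 := (mem_ix_inr.1 hmem) (y t)
      simp only [Finset.mem_filter, hyH, true_and] at h1
      exact hy t hts h1.symm

end SetTh

/-- A normed space with a finite dense subset is trivial. -/
theorem eq_bot_of_dens_lt {𝕜 : Type} [RCLike 𝕜] {X : Type} [NormedAddCommGroup X]
    [NormedSpace 𝕜 X] {V : Submodule 𝕜 X} (hV : dens V < ℵ₀) : V = ⊥ := by
  obtain ⟨D, hD, hDe⟩ := dens_spec V
  rw [← hDe] at hV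
  have hfin : D.Finite := Cardinal.lt_aleph0_iff_set_finite.1 hV
  have h1 : (univ : Set V) = D := by
    rw [← hD.closure_eq, hfin.isClosed.closure_eq]
  have h2 : Finite V := by
    rw [← Set.finite_univ_iff, h1]; exact hfin
  by_contra hne
  obtain ⟨v, hv, hv0⟩ := (Submodule.ne_bot_iff V).1 hne
  have hinj : Function.Injective (fun n : ℕ => (n : 𝕜) • (⟨v, hv⟩ : V)) := by
    intro a b hab
    have h3 : (a : 𝕜) • v = (b : 𝕜) • v := congrArg Subtype.val hab
    have h4 : ((a : 𝕜) - b) • v = 0 := by rw [sub_smul, h3, sub_self]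
    rcases smul_eq_zero.1 h4 with h | h
    · exact_mod_cast sub_eq_zero.1 h
    · exact absurd h hv0
  exact not_injective_infinite_finite _ hinj

theorem isComplemented_bot (𝕜 : Type) [RCLike 𝕜] {X : Type} [NormedAddCommGroup X]
    [NormedSpace 𝕜 X] : IsComplemented 𝕜 (⊥ : Submodule 𝕜 X) := by
  refine ⟨0, fun x => by simp, ?_⟩
  ext x
  constructor
  · rintro ⟨y, rfl⟩; simp
  · intro hx
    rw [SetLike.mem_coe, Submodule.mem_bot] at hx
    exact ⟨0, by simp [hx]⟩

/-- The positive part. -/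
theorem positive (𝕜 : Type) [RCLike 𝕜] {κ : Cardinal.{0}} (hκ : κ ≤ ℵ₀) (X : Type)
    [NormedAddCommGroup X] [NormedSpace 𝕜 X] (hX : HasSCP 𝕜 X) (W : Submodule 𝕜 X)
    (hW : IsClosed (W : Set X)) (hd : dens W = κ) :
    ∃ V : Submodule 𝕜 X, IsClosed (V : Set X) ∧ W ≤ V ∧ IsComplemented 𝕜 V ∧ dens V = κ := by
  rcases hκ.lt_or_eq with h | h
  · have hb : W = ⊥ := eq_bot_of_dens_lt (hd ▸ h)
    refine ⟨W, hW, le_rfl, ?_, hd⟩
    rw [hb]; exact isComplemented_bot 𝕜
  · have hsepW : IsSeparable (W : Set X) := by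
      obtain ⟨D, hD, hDe⟩ := dens_spec W
      have hDc : D.Countable := by
        rw [← Cardinal.le_aleph0_iff_set_countable, hDe, hd, h]
      refine ⟨Subtype.val '' D, hDc.image _, ?_⟩
      intro x hx
      have h1 : (⟨x, hx⟩ : W) ∈ closure D := hD _
      have := image_closure_subset_closure_image (f := (Subtype.val : W → X))
        continuous_subtype_val (mem_image_of_mem _ h1)
      exact this
    obtain ⟨T, hWT, hTc, hTs, hT⟩ := hX W hW hsepW
    refine ⟨T, hTc, hWT, hT, ?_⟩
    rw [h]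
    apply le_antisymm
    · have : SeparableSpace T := hTs.separableSpace
      obtain ⟨D, hDc, hD⟩ := exists_countable_dense T
      exact (dens_le hD).trans (Cardinal.le_aleph0_iff_set_countable.2 hDc)
    · by_contra hlt
      push Not at hlt
      have hb : T = ⊥ := eq_bot_of_dens_lt hlt
      have hWb : W = ⊥ := by rw [eq_bot_iff, ← hb]; exact hWT
      have h2 : dens W ≤ #(univ : Set W) := dens_le dense_univ
      rw [hd, h, mk_univ] at h2
      have : Subsingleton W := by rw [hWb]; infer_instance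
      have h3 : #W ≤ 1 := Cardinal.le_one_iff_subsingleton.2 this
      exact absurd (h2.trans h3) (not_le.2 one_lt_aleph0)

/-- The negative part. -/
theorem negative (𝕜 : Type) [RCLike 𝕜] {κ : Cardinal.{0}} (hκ : ℵ₀ < κ) :
    ∃ (X : Type) (_ : NormedAddCommGroup X) (_ : NormedSpace 𝕜 X),
      CompleteSpace X ∧ HasSCP 𝕜 X ∧
        ∃ W : Submodule 𝕜 X, IsClosed (W : Set X) ∧ dens W = κ ∧
          ∀ V : Submodule 𝕜 X, IsClosed (V : Set X) → W ≤ V → IsComplemented 𝕜 V →
            dens V = 2 ^ κ := by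
  classical
  let G : Type := κ.out
  have hcard : #G = κ := mk_out κ
  have hunc : Uncountable G := by
    rw [← Cardinal.aleph0_lt_mk_iff, hcard]; exact hκ
  have hGinf : Infinite G := inferInstance
  let J : Type := Ix G
  let Γ : Type := Gam G
  let S : J → Set Γ := ix
  let E : Type := lp (fun _ : Γ => 𝕜) 2
  let F : J → Submodule 𝕜 (lp (fun _ : Γ => 𝕜) 2) := fun j => Fsub 𝕜 (S j)
  let X := kerSpace (𝕜 := 𝕜) F
  have hXcl : IsClosed (kerSpace (𝕜 := 𝕜) F : Set (lp (fun _ : J => lp (fun _ : Γ => 𝕜) 2) 1)) :=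
    isClosed_kerSpace fun j => isClosed_Fsub (S j)
  have hXc : CompleteSpace (kerSpace (𝕜 := 𝕜) F) := hXcl.completeSpace_coe
  let fi : Finset Γ → J := fun K => Sum.inl (Sum.inr K)
  have hfi : Function.Injective fi := fun K K' h => Sum.inr_injective (Sum.inl_injective h)
  let J₀ : Set J := range fi
  -- the small subspace
  let W : Submodule 𝕜 (kerSpace (𝕜 := 𝕜) F) :=
    { carrier := {x | ∀ j ∉ J₀, (x : lp (fun _ : J => lp (fun _ : Γ => 𝕜) 2) 1) j = 0}
      add_mem' := by
        intro x y hx hy j hj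
        rw [Submodule.coe_add, lp.coeFn_add, Pi.add_apply, hx j hj, hy j hj, add_zero]
      zero_mem' := fun j _ => rfl
      smul_mem' := by
        intro a x hx j hj
        rw [Submodule.coe_smul, lp.coeFn_smul, Pi.smul_apply, hx j hj, smul_zero] }
  have hW : ∀ x : kerSpace (𝕜 := 𝕜) F, x ∈ W ↔
      ∀ j ∉ J₀, (x : lp (fun _ : J => lp (fun _ : Γ => 𝕜) 2) 1) j = 0 := fun x => Iff.rfl
  have hWcl : IsClosed (W : Set (kerSpace (𝕜 := 𝕜) F)) := by
    have : (W : Set (kerSpace (𝕜 := 𝕜) F)) =
        ⋂ j, ⋂ (_ : j ∉ J₀), {x : kerSpace (𝕜 := 𝕜) F |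
          (x : lp (fun _ : J => lp (fun _ : Γ => 𝕜) 2) 1) j = 0} := by
      ext x
      simp only [SetLike.mem_coe, hW, Set.mem_iInter, Set.mem_ofPred_eq]
    rw [this]
    refine isClosed_iInter fun j => isClosed_iInter fun _ => ?_
    exact isClosed_eq ((lp.evalCLM 𝕜 (fun _ : J => lp (fun _ : Γ => 𝕜) 2) 1 j).continuous.comp
      continuous_subtype_val) continuous_const
  have hG1 : ℵ₀ ≤ κ := hκ.le
  have hΓ : #Γ = κ := by
    change #(Finset G × Finset G) = _
    rw [Cardinal.mk_prod, lift_id, mk_finset_of_infinite, hcard, mul_eq_self hG1]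
  have hΓinf : Infinite Γ := by
    rw [Cardinal.infinite_iff, hΓ]; exact hG1
  have hal : ℵ₀ < (2 : Cardinal.{0}) ^ κ := hκ.trans (cantor _)
  -- the density of the whole space
  have hup : ∀ V : Submodule 𝕜 (kerSpace (𝕜 := 𝕜) F), dens V ≤ 2 ^ κ := by
    intro V
    let B : Set (lp (fun _ : J => lp (fun _ : Γ => 𝕜) 2) 1) :=
      range (fun q : J × Γ => lp.single (E := fun _ : J => lp (fun _ : Γ => 𝕜) 2) 1
        q.1 (lp.single (E := fun _ : Γ => 𝕜) 2 q.2 (1 : 𝕜)))
    have hJ : #J ≤ 2 ^ κ := by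
      have h1 : #{C : Set Γ // C.Countable} ≤ 2 ^ κ := by
        calc #{C : Set Γ // C.Countable} ≤ #(Set Γ) :=
              mk_le_of_injective Subtype.val_injective
          _ = 2 ^ κ := by rw [mk_set, hΓ]
      have h2 : #(Finset Γ) ≤ 2 ^ κ := by
        rw [mk_finset_of_infinite, hΓ]; exact (cantor κ).le
      have h3 : #(Set G) ≤ 2 ^ κ := by rw [mk_set, hcard]
      change #(({C : Set Γ // C.Countable} ⊕ Finset Γ) ⊕ Set G) ≤ _
      rw [mk_sum, mk_sum]
      simp only [lift_id]
      exact add_le_of_le hal.le (add_le_of_le hal.le h1 h2) h3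
    have hB : #B ≤ 2 ^ κ := by
      calc #B ≤ #(J × Γ) := mk_range_le
        _ = #J * #Γ := by rw [Cardinal.mk_prod, lift_id, lift_id]
        _ ≤ 2 ^ κ * 2 ^ κ := mul_le_mul' hJ (by rw [hΓ]; exact (cantor κ).le)
        _ = 2 ^ κ := mul_eq_self hal.le
    obtain ⟨D, hDκ, hD⟩ := exists_small_dense_span (𝕜 := 𝕜) B (2 ^ κ) hal.le hB
    suffices hmemD : ∀ w : V, (((w : kerSpace (𝕜 := 𝕜) F)) :
        lp (fun _ : J => lp (fun _ : Γ => 𝕜) 2) 1) ∈ closure D by
      obtain ⟨D', hD', hD'κ⟩ := exists_dense_of_isometry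
        (fun w : V => (((w : kerSpace (𝕜 := 𝕜) F)) : lp (fun _ : J => lp (fun _ : Γ => 𝕜) 2) 1))
        (isometry_subtype_coe.comp isometry_subtype_coe) D hmemD (2 ^ κ) hal.le hDκ
      exact (dens_le hD').trans hD'κ
    intro w
    apply hD
    set N := (Submodule.span 𝕜 B).topologicalClosure with hNdef
    have hN : IsClosed (N : Set (lp (fun _ : J => lp (fun _ : Γ => 𝕜) 2) 1)) :=
      Submodule.isClosed_topologicalClosure _
    refine mem_of_hasSum (𝕜 := 𝕜) N hN (lp.hasSum_single (p := 1) (by simp)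
      ((w : kerSpace (𝕜 := 𝕜) F) : lp (fun _ : J => lp (fun _ : Γ => 𝕜) 2) 1)) ?_
    intro j
    have h1 := (lp.hasSum_single (E := fun _ : Γ => 𝕜) (p := 2) (by simp)
      (((w : kerSpace (𝕜 := 𝕜) F) : lp (fun _ : J => lp (fun _ : Γ => 𝕜) 2) 1) j)).mapL
      (lp.singleContinuousLinearMap 𝕜 (fun _ : J => lp (fun _ : Γ => 𝕜) 2) 1 j)
    refine mem_of_hasSum (𝕜 := 𝕜) N hN h1 ?_
    intro γ
    have : ∀ t : 𝕜, lp.single (E := fun _ : Γ => 𝕜) 2 γ t =
        t • lp.single (E := fun _ : Γ => 𝕜) 2 γ (1 : 𝕜) := by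
      intro t
      rw [← lp.single_smul]; simp
    rw [this, map_smul]
    apply N.smul_mem
    apply (Submodule.span 𝕜 B).le_topologicalClosure
    apply Submodule.subset_span
    exact ⟨(j, γ), rfl⟩
  refine ⟨kerSpace (𝕜 := 𝕜) F, inferInstance, inferInstance, hXc, ?_, W, hWcl, ?_, ?_⟩
  · -- SCP
    intro Y _ hYsep
    obtain ⟨T, hYT, hTc, hTs, P, hP1, hP2⟩ := scp_hil (𝕜 := 𝕜) S
      (range fun C : {C : Set Γ // C.Countable} => (Sum.inl (Sum.inl C) : J))
      (by rintro _ ⟨C, rfl⟩; exact C.2)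
      (by
        intro D hD
        exact ⟨Sum.inl (Sum.inl ⟨D, hD⟩), mem_range_self _, subset_rfl⟩) Y hYsep
    refine ⟨T, hYT, hTc, hTs, P, fun x => hP2 _ (hP1 x), ?_⟩
    ext x
    constructor
    · rintro ⟨y, rfl⟩; exact hP1 y
    · intro hx; exact ⟨x, hP2 x hx⟩
  · -- density of W
    apply le_antisymm
    · -- upper bound
      let B : Set (lp (fun _ : J => lp (fun _ : Γ => 𝕜) 2) 1) :=
        range (fun q : Finset Γ × Γ => lp.single (E := fun _ : J => lp (fun _ : Γ => 𝕜) 2) 1
          (fi q.1) (lp.single (E := fun _ : Γ => 𝕜) 2 q.2 (1 : 𝕜)))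
      have hB : #B ≤ κ := by
        calc #B ≤ #(Finset Γ × Γ) := mk_range_le
          _ = κ := by
            rw [Cardinal.mk_prod, lift_id, lift_id, mk_finset_of_infinite, hΓ, mul_eq_self hG1]
      obtain ⟨D, hDκ, hD⟩ := exists_small_dense_span (𝕜 := 𝕜) B κ hG1 hB
      suffices hmemD : ∀ w : W, (((w : kerSpace (𝕜 := 𝕜) F)) :
          lp (fun _ : J => lp (fun _ : Γ => 𝕜) 2) 1) ∈ closure D by
        obtain ⟨D', hD', hD'κ⟩ := exists_dense_of_isometry
          (fun w : W => (((w : kerSpace (𝕜 := 𝕜) F)) : lp (fun _ : J => lp (fun _ : Γ => 𝕜) 2) 1))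
          (isometry_subtype_coe.comp isometry_subtype_coe) D hmemD κ hG1 hDκ
        exact (dens_le hD').trans hD'κ
      · intro w
        apply hD
        set N := (Submodule.span 𝕜 B).topologicalClosure with hNdef
        have hN : IsClosed (N : Set (lp (fun _ : J => lp (fun _ : Γ => 𝕜) 2) 1)) :=
          Submodule.isClosed_topologicalClosure _
        refine mem_of_hasSum (𝕜 := 𝕜) N hN (lp.hasSum_single (p := 1) (by simp)
          ((w : kerSpace (𝕜 := 𝕜) F) : lp (fun _ : J => lp (fun _ : Γ => 𝕜) 2) 1)) ?_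
        intro j
        by_cases hj : j ∈ J₀
        · obtain ⟨a, rfl⟩ := hj
          have h1 := (lp.hasSum_single (E := fun _ : Γ => 𝕜) (p := 2) (by simp)
            (((w : kerSpace (𝕜 := 𝕜) F) : lp (fun _ : J => lp (fun _ : Γ => 𝕜) 2) 1)
              (fi a))).mapL
            (lp.singleContinuousLinearMap 𝕜 (fun _ : J => lp (fun _ : Γ => 𝕜) 2) 1 (fi a))
          refine mem_of_hasSum (𝕜 := 𝕜) N hN h1 ?_
          intro γ
          have : ∀ t : 𝕜, lp.single (E := fun _ : Γ => 𝕜) 2 γ t =
              t • lp.single (E := fun _ : Γ => 𝕜) 2 γ (1 : 𝕜) := by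
            intro t
            rw [← lp.single_smul]; simp
          rw [this, map_smul]
          apply N.smul_mem
          apply (Submodule.span 𝕜 B).le_topologicalClosure
          apply Submodule.subset_span
          exact ⟨(a, γ), rfl⟩
        · rw [w.2 j hj]
          simp
    · -- lower bound
      obtain ⟨D, hD, hDeq⟩ := dens_spec W
      rw [← hDeq, ← hcard]
      -- the separated family
      let γ : G → Γ := fun a => ({a}, ∅)
      let γ' : Γ := (∅, ∅)
      have hγinj : ∀ a b, a ≠ b → γ a ≠ γ b := by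
        intro a b hab h
        apply hab
        have := congrArg Prod.fst h
        simpa [γ] using this
      have hγne : ∀ a, γ a ≠ γ' := by
        intro a h
        have := congrArg Prod.fst h
        simp [γ, γ'] at this
      let c1 : G → J := fun a => fi {γ a}
      let c2 : G → J := fun a => fi {γ a, γ'}
      have hγ1 : ∀ a, γ a ∈ S (c1 a) := by
        intro a
        change γ a ∈ (({γ a} : Finset Γ) : Set Γ)
        simp
      have hγ2 : ∀ a, γ a ∈ S (c2 a) := by
        intro a
        change γ a ∈ (({γ a, γ'} : Finset Γ) : Set Γ)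
        simp
      have hc12 : ∀ a b, c1 a ≠ c2 b := by
        intro a b h
        have h1 : ({γ a} : Finset Γ) = {γ b, γ'} := hfi h
        have h2 := congrArg Finset.card h1
        rw [Finset.card_singleton, Finset.card_pair (hγne b)] at h2
        omega
      have hc11 : ∀ a b, a ≠ b → c1 a ≠ c1 b := by
        intro a b hab h
        have h1 : ({γ a} : Finset Γ) = {γ b} := hfi h
        exact hγinj a b hab (Finset.singleton_injective h1)
      have hmemF : ∀ (j : J) (g : Γ), g ∈ S j → lp.single (E := fun _ : Γ => 𝕜) 2 g (1 : 𝕜) ∈ F j := by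
        intro j g hg g' hg'
        have : g' ≠ g := fun h => hg' (h ▸ hg)
        simp [Pi.single_eq_of_ne this]
      let wv : G → kerSpace (𝕜 := 𝕜) F := fun a =>
        ⟨_, pre_mem (F := F) (hmemF _ _ (hγ1 a)) (hmemF _ _ (hγ2 a))⟩
      have hwv : ∀ a, ((wv a : kerSpace (𝕜 := 𝕜) F) : lp (fun _ : J => lp (fun _ : Γ => 𝕜) 2) 1) =
          lp.single (E := fun _ : J => lp (fun _ : Γ => 𝕜) 2) 1 (c1 a)
            (lp.single (E := fun _ : Γ => 𝕜) 2 (γ a) (1 : 𝕜)) -
          lp.single (E := fun _ : J => lp (fun _ : Γ => 𝕜) 2) 1 (c2 a)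
            (lp.single (E := fun _ : Γ => 𝕜) 2 (γ a) (1 : 𝕜)) := fun a => rfl
      have hwW : ∀ a, wv a ∈ W := by
        intro a j hj
        have h1 : j ≠ c1 a := fun h => hj (h ▸ mem_range_self _)
        have h2 : j ≠ c2 a := fun h => hj (h ▸ mem_range_self _)
        rw [hwv, lp.coeFn_sub, Pi.sub_apply]
        simp [Pi.single_eq_of_ne h1, Pi.single_eq_of_ne h2]
      let w : G → W := fun a => ⟨wv a, hwW a⟩
      have hsep : ∀ a b, a ≠ b → 1 ≤ dist (w a) (w b) := by
        intro a b hab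
        have h1 : dist (w a) (w b) =
            ‖((wv a : kerSpace (𝕜 := 𝕜) F) : lp (fun _ : J => lp (fun _ : Γ => 𝕜) 2) 1) -
              ((wv b : kerSpace (𝕜 := 𝕜) F) : lp (fun _ : J => lp (fun _ : Γ => 𝕜) 2) 1)‖ := by
          rw [dist_eq_norm]; rfl
        rw [h1]
        set d := ((wv a : kerSpace (𝕜 := 𝕜) F) : lp (fun _ : J => lp (fun _ : Γ => 𝕜) 2) 1) -
              ((wv b : kerSpace (𝕜 := 𝕜) F) : lp (fun _ : J => lp (fun _ : Γ => 𝕜) 2) 1) with hd
        have h2 : ‖(d (c1 a) : lp (fun _ : Γ => 𝕜) 2) (γ a)‖ ≤ ‖d‖ :=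
          (lp.norm_apply_le_norm (by simp) _ _).trans (lp.norm_apply_le_norm (by simp) d _)
        have h3 : (d (c1 a) : lp (fun _ : Γ => 𝕜) 2) (γ a) = 1 := by
          rw [hd, lp.coeFn_sub, Pi.sub_apply, lp.coeFn_sub, Pi.sub_apply]
          have e1 : (((wv a : kerSpace (𝕜 := 𝕜) F) : lp (fun _ : J => lp (fun _ : Γ => 𝕜) 2) 1)
              (c1 a) : lp (fun _ : Γ => 𝕜) 2) (γ a) = 1 := by
            rw [hwv, lp.coeFn_sub, Pi.sub_apply, lp.coeFn_sub, Pi.sub_apply]
            simp [Pi.single_eq_of_ne (hc12 a a)]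
          have e2 : (((wv b : kerSpace (𝕜 := 𝕜) F) : lp (fun _ : J => lp (fun _ : Γ => 𝕜) 2) 1)
              (c1 a) : lp (fun _ : Γ => 𝕜) 2) (γ a) = 0 := by
            rw [hwv, lp.coeFn_sub, Pi.sub_apply, lp.coeFn_sub, Pi.sub_apply]
            simp [Pi.single_eq_of_ne (hc12 a b), Pi.single_eq_of_ne (hc11 a b hab)]
          rw [e1, e2, sub_zero]
        rw [h3, norm_one] at h2
        exact h2
      have hch : ∀ a : G, ∃ d ∈ D, dist (w a) d < 1 / 2 := fun a =>
        Metric.mem_closure_iff.1 (hD (w a)) _ (by norm_num)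
      choose d hdD hd using hch
      have hinj : Function.Injective (fun a : G => (⟨d a, hdD a⟩ : D)) := by
        intro a b hab
        by_contra hne
        have h1 : d a = d b := congrArg Subtype.val hab
        have h2 := hsep a b hne
        have h3 : dist (w a) (w b) ≤ dist (w a) (d a) + dist (w b) (d b) := by
          calc dist (w a) (w b) ≤ dist (w a) (d a) + dist (d a) (w b) := dist_triangle _ _ _
            _ = dist (w a) (d a) + dist (w b) (d b) := by rw [h1, dist_comm (d b)]
        linarith [hd a, hd b]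
      exact mk_le_of_injective hinj
  · -- no complemented superspace of small density
    rintro V hVcl hWV ⟨P, hP1, hP2⟩
    refine le_antisymm (hup V) ?_
    by_contra hlt
    push Not at hlt
    obtain ⟨D, hD, hDeq⟩ := dens_spec V
    -- the support of V
    let JV : Set J := ⋃ v : D, Function.support
      (fun j => (((v : V) : kerSpace (𝕜 := 𝕜) F) : lp (fun _ : J => lp (fun _ : Γ => 𝕜) 2) 1) j)
    have hJV : #JV < 2 ^ κ := by
      have h1 : #JV ≤ Cardinal.sum (fun v : D => #(Function.support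
        (fun j => (((v : V) : kerSpace (𝕜 := 𝕜) F) : lp (fun _ : J => lp (fun _ : Γ => 𝕜) 2) 1) j))) :=
        mk_iUnion_le_sum_mk
      refine h1.trans_lt ?_
      have h2 : Cardinal.sum (fun v : D => #(Function.support
        (fun j => (((v : V) : kerSpace (𝕜 := 𝕜) F) : lp (fun _ : J => lp (fun _ : Γ => 𝕜) 2) 1) j)))
          ≤ Cardinal.sum (fun _ : D => ℵ₀) := by
        apply Cardinal.sum_le_sum
        intro v
        exact Cardinal.le_aleph0_iff_set_countable.2
          (Memℓp.summable_of_one (lp.memℓp _)).countable_support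
      refine h2.trans_lt ?_
      rw [Cardinal.sum_const']
      exact mul_lt_of_lt hal.le (hDeq ▸ hlt) hal
    -- a big index outside of it
    have hs : ∃ s : Set G, (Sum.inr s : J) ∉ JV := by
      by_contra hcon
      push Not at hcon
      have h1 : #(Set G) ≤ #JV := by
        apply mk_le_of_injective (f := fun s : Set G => (⟨Sum.inr s, hcon s⟩ : JV))
        intro s t hst
        exact Sum.inr_injective (congrArg Subtype.val hst)
      rw [mk_set, hcard] at h1
      exact absurd h1 (not_le.2 hJV)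
    obtain ⟨s, hs⟩ := hs
    have hVs : ∀ v ∈ V, ((v : kerSpace (𝕜 := 𝕜) F) : lp (fun _ : J => lp (fun _ : Γ => 𝕜) 2) 1)
        (Sum.inr s) = 0 := by
      intro v hv
      have hcl : IsClosed {v : V | ((v : kerSpace (𝕜 := 𝕜) F) :
          lp (fun _ : J => lp (fun _ : Γ => 𝕜) 2) 1) (Sum.inr s) = 0} :=
        isClosed_eq ((lp.evalCLM 𝕜 (fun _ : J => lp (fun _ : Γ => 𝕜) 2) 1 (Sum.inr s)).continuous.comp
          (continuous_subtype_val.comp continuous_subtype_val)) continuous_const
      have hsub : D ⊆ {v : V | ((v : kerSpace (𝕜 := 𝕜) F) :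
          lp (fun _ : J => lp (fun _ : Γ => 𝕜) 2) 1) (Sum.inr s) = 0} := by
        intro v hv
        by_contra h
        exact hs (mem_iUnion.2 ⟨⟨v, hv⟩, h⟩)
      have := hcl.closure_subset_iff.2 hsub (hD ⟨v, hv⟩)
      exact this
    have hPV : ∀ x, P x ∈ V := by
      intro x
      have : P x ∈ Set.range P := mem_range_self x
      rw [hP2] at this
      exact this
    have hPfix : ∀ x ∈ V, P x = x := by
      intro x hx
      have : x ∈ Set.range P := by rw [hP2]; exact hx
      obtain ⟨y, rfl⟩ := this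
      exact hP1 y
    refine no_operator (𝕜 := 𝕜) F S (fun g => lp.single (E := fun _ : Γ => 𝕜) 2 g (1 : 𝕜))
      (fun g => lp.evalCLM 𝕜 (fun _ : Γ => 𝕜) 2 g) ?_ ?_ ?_ ?_ 1 ?_ J₀ (Sum.inr s) ?_ ?_ ?_ P ?_ ?_
    · intro g
      apply ContinuousLinearMap.opNorm_le_bound _ zero_le_one
      intro x
      rw [one_mul]
      exact lp.norm_apply_le_norm (by simp) x g
    · intro g
      change (lp.single (E := fun _ : Γ => 𝕜) 2 g (1 : 𝕜)) g = 1
      simp
    · intro j g hg g' hg'
      have : g' ≠ g := fun h => hg' (h ▸ hg)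
      simp [Pi.single_eq_of_ne this]
    · intro j g hg x hx
      exact hx g hg
    · intro K θ hθ
      have h1 := lp.norm_sum_single (E := fun _ : Γ => 𝕜) (p := 2) (by simp)
        (fun g => (θ g : 𝕜)) K
      have h2 : ∀ g : Γ, (θ g : 𝕜) • lp.single (E := fun _ : Γ => 𝕜) 2 g (1 : 𝕜) =
          lp.single (E := fun _ : Γ => 𝕜) 2 g (θ g : 𝕜) := by
        intro g
        rw [← lp.single_smul]; simp
      simp only [h2]
      have h3 : ∀ g : Γ, ‖((θ g : ℝ) : 𝕜)‖ = 1 := by
        intro g
        rw [RCLike.norm_ofReal, hθ]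
      simp only [h3] at h1
      have h4 : ((2 : ℝ≥0∞)).toReal = (2 : ℝ) := by simp
      rw [h4] at h1
      simp only [Real.rpow_two, one_pow, Finset.sum_const, nsmul_eq_mul, mul_one] at h1
      rw [h1]; simp
    · rintro ⟨a, ha⟩
      exact Sum.inl_ne_inr ha
    · intro K _
      exact ⟨fi K, mem_range_self K, subset_rfl⟩
    · intro G' hG' K
      exact free_ix s G' hG' K
    · intro x hx
      exact hPfix x (hWV hx)
    · intro x
      exact hVs _ (hPV x)

/-- **For which cardinals does the separable complementation property extend to subspaces of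
density `κ`?** Exactly for `κ ≤ ℵ₀`: for uncountable `κ` there is a Banach space with the separable
complementation property and a subspace `W` of density `κ` such that every complemented subspace
which contains `W` has density `2 ^ κ` (the density of the whole space). -/
theorem result (𝕜 : Type) [RCLike 𝕜] (κ : Cardinal.{0}) :
    (κ ≤ ℵ₀ → ∀ (X : Type) [NormedAddCommGroup X] [NormedSpace 𝕜 X] [CompleteSpace X],
      HasSCP 𝕜 X → ∀ W : Submodule 𝕜 X, IsClosed (W : Set X) → dens W = κ →
        ∃ V : Submodule 𝕜 X, IsClosed (V : Set X) ∧ W ≤ V ∧ IsComplemented 𝕜 V ∧ dens V = κ) ∧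
    (ℵ₀ < κ → ∃ (X : Type) (_ : NormedAddCommGroup X) (_ : NormedSpace 𝕜 X),
      CompleteSpace X ∧ HasSCP 𝕜 X ∧
        ∃ W : Submodule 𝕜 X, IsClosed (W : Set X) ∧ dens W = κ ∧
          ∀ V : Submodule 𝕜 X, IsClosed (V : Set X) → W ≤ V → IsComplemented 𝕜 V →
            dens V = 2 ^ κ) :=
  ⟨fun hκ X _ _ _ hX W hW hd => positive 𝕜 hκ X hX W hW hd, fun hκ => negative 𝕜 hκ⟩

end Pool.Agent.Results.MP_52c726_an.AllUncountableCardinals
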